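import Pool.Agent.Q43.RP.DefsN
import Pool.Agent.Q43.RP.Mtl
import Pool.Agent.Q43.ST.Ker

/-!
# The motivic Sato-Tate conjecture for abelian varieties with one Frobenius torus of large rank

Let `A` be any abelian variety over a finitely generated subfield `k₀` of the complex numbers (no
condition on the endomorphisms; factors of type IV are allowed), and `M = h^1(A)`. Suppose that at ONE
place of good reduction, with residue field of `q` elements, the characteristic polynomial of the
Frobenius element is the product of the minimal polynomials of Weil numbers `π i` in CM fields `K i`,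
`[K i : ℚ] ≥ 2 g` for all `i` (for instance one field of degree `2 g = 2 dim A`: the Frobenius polynomial
is irreducible). Nothing is assumed about the Galois groups of these fields or the slopes. Let `D`
be the defect (`defect`), the rank of the group of the multiplicative relations between the Frobenius
eigenvalues, up to roots of unity and modulo the trivial relations `φ (π) conj (φ (π)) = q`: the
Frobenius torus has rank `dim A + 1 - D`.

**Theorem.** If `4 D < g`, then over `k₀` and over every finite extension `k'` of `k₀` (the fixed field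
of a subgroup `Δ` of finite index of the Galois group) and for the prime `ℓ` of the Tate module

* the motivic Tate conjecture holds for `M`: the `ℓ`-adic monodromy group `G_{ℓ,k'}(M)` is the motivic
  Galois group `𝒢_{k'}(M)` (over `ℚ_ℓ`);
* the motivic Sato-Tate conjecture (Q1) holds for `M`: `G_{1,ℓ,k'}(M) = 𝒢_{1,k'}(M)`.

The equality is an equality of group schemes: for the groups of the points with values in any
commutative `ℚ_ℓ`-algebra `R`. Both groups are defined by tensors. `G_{ℓ,k'}(M)` is the group of the
automorphisms `u` of `R ⊗ V`, with a factor `c` for the Tate motive, which fix all Galois invariant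
elements of the spaces `(V*)^{⊗ 2 m}(m)` (`monodromy`; this is the tannakian definition in the problem,
since the representation is semisimple by the theorem of Faltings and the tensors without weight are
of this form by the Weil pairing). `𝒢_{k'}(M)` is the group of the automorphisms which fix the
motivic classes (absolute Hodge classes) over `k'`, which by Deligne's theorem are the Hodge classes whose
`ℓ`-adic realization is Galois invariant (`motivic`). The kernel of the multiplier is the group of the
`u` with `c = 1`: the form `ω` is one of the motivic tensors.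

Since the tannakian groups of all motives in the category generated by `h^1(A)` are quotients of the two
groups, Q1 follows for all these motives (this is not formalized).

The proof: by the library theorem `mt_free` (`MP_c1bb77_ag.LargeFrobeniusTorus`) all Tate classes
are combinations, with coefficients in `ℚ_ℓ`, of Hodge classes. By Deligne's theorem the Galois group acts
rationally on the space of Hodge classes; so the Galois invariant combinations over `ℚ_ℓ` are
combinations of Galois invariant Hodge classes. So both groups are defined by the same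
spaces of tensors.

In the Lean statement `H` is `H_1(A, ℚ)`, `T` the tangent space at the origin, `per : H → T` the
inclusion; `ρ`, `χ`, `ω` are the Galois representation on the Tate module `ℚ_ℓ ⊗ H`, the cyclotomic
character and the Weil pairing (`IsAbelianVariety`; this contains the theorems of Faltings, the
theorem of Deligne and the theorem on centres of Vasiu, Ullmo and Yafaev); `GaloisActsOnHodge` is the
full theorem of Deligne: the Galois group transforms Hodge classes into Hodge classes.
-/

set_option autoImplicit false

namespace Pool.Agent.Results.MP_d61fbb_ag.LargeFrobeniusTorus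

open NumberField Module TensorProduct Pool.Agent.H204R3.GP Pool.Agent.W516.MTD
  Pool.Agent.TH776.FM Pool.Agent.Q43.ST

/-- **The motivic Tate conjecture and the motivic Sato-Tate conjecture for abelian varieties with one
Frobenius torus of rank greater than `3 g / 4 + 1`**. -/
theorem result {I : Type} [Fintype I] (K : I → Type) [∀ i, Field (K i)] [∀ i, NumberField (K i)]
    [∀ i, IsCMField (K i)] (q : ℕ) (hq : 0 < q) (π : ∀ i, K i)
    (hweil : ∀ i, ∀ φ : K i →+* ℂ, ‖φ (π i)‖ ^ 2 = (q : ℝ)) (g : ℕ)
    (hg : ∀ i, 2 * g ≤ finrank ℚ (K i)) (ℓ : ℕ) [Fact ℓ.Prime]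
    {H T Γ : Type} [AddCommGroup H] [Module ℚ H] [FiniteDimensional ℚ H]
    [AddCommGroup T] [Module ℂ T] [Group Γ] (per : H →+ T) (ω₀ : H →ₗ[ℚ] H →ₗ[ℚ] ℚ)
    (ρ : Representation ℚ_[ℓ] Γ (ℚ_[ℓ] ⊗[ℚ] H)) (χ : Γ →* ℚ_[ℓ])
    (ω : ℚ_[ℓ] ⊗[ℚ] H →ₗ[ℚ_[ℓ]] ℚ_[ℓ] ⊗[ℚ] H →ₗ[ℚ_[ℓ]] ℚ_[ℓ])
    (hA : IsAbelianVariety per ω₀ ρ χ ω) (hD : GaloisActsOnHodge per ρ χ) (γ : Γ) (hχ : χ γ = q)
    (hγ : (ρ γ).charpoly = (∏ i, minpoly ℚ (π i)).map (algebraMap ℚ ℚ_[ℓ]))
    (h4 : 4 * Pool.Agent.Q43.RP.defect K π < g) (Δ : Subgroup Γ) (hΔ : Δ.FiniteIndex)
    (R : Type) [CommRing R] [Algebra ℚ_[ℓ] R] :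
    monodromy ρ χ Δ R = motivic per ρ χ Δ R ∧
    multiplierKernel (monodromy ρ χ Δ R) = multiplierKernel (motivic per ρ χ Δ R) := by
  have hq' : (0 : ℚ) < (q : ℚ) := Nat.cast_pos.2 hq
  have hweil' : ∀ i, ∀ φ : K i →+* ℂ, ‖φ (π i)‖ ^ 2 = (((q : ℚ) : ℝ)) := by
    intro i φ
    rw [hweil]
    norm_cast
  have hDf : Pool.Agent.Q43.RP.defect K π =
      finrank ℤ (Pool.Agent.Q43.RP.relLat K π) := rfl
  have hS := Pool.Agent.Q43.RP.shortFree_of_defect K hg hq' π hweil' (k := 4) (by
    rw [← hDf]
    omega)
  have key : monodromy ρ χ Δ R = motivic per ρ χ Δ R := by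
    refine tannakian_eq ((finBasis ℚ H).baseChange ℚ_[ℓ]) (fun m φ hφ => hφ.1)
      (fun m φ hφ => ?_) R
    exact descent (finBasis ℚ H) per ρ χ hD Δ
      (Pool.Agent.Q43.RP.mt_free K hq π hweil hS hA γ hχ hγ m φ ⟨Δ, hΔ, hφ⟩) hφ
  exact ⟨key, by rw [key]⟩

end Pool.Agent.Results.MP_d61fbb_ag.LargeFrobeniusTorus
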