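import Mathlib
import Pool.Agent.Q43.TB.Non
import Pool.Agent.Q43.TB.Min

/-!
# The Mumford-Tate conjecture for motives of level two over the rational numbers

`T = T_1 ⊕ ... ⊕ T_r` is a polarised rational Hodge structure of level two, twisted to weight zero
(for example the transcendental part of `H^2(X)(1)`, `X` a surface over `ℚ`; `c a` says to which
summand the `a`-th basis vector belongs), and `V` is a rational Hodge structure for which the Lie
algebra of the Mumford-Tate group has only the Hodge types `(-1,1)`, `(0,0)`, `(1,-1)` (for example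
the algebraic classes in `H^2(X)(1)`, or any Hodge structure in the tensor category generated by the
`H^1` of abelian varieties).  The Hodge numbers of `T_i` are `(p_i, q_i, p_i)`, with `p_i ≥ 2` prime
to `q_i` (see `T.Big` in the starting files, which also contains
`2 p_i^2 (p_i^2 + 1) < (q_i - 2 p_i) (q_i + p_i)` and: all endomorphisms of `T` are rational scalars
on the `T_i`).  The absolute Galois group `Γ` of `ℚ` acts on the `ℓ`-adic realizations by `α` and
`β`.

Suppose that all inertia groups of `Γ` (at all primes of the ring of all algebraic integers) consist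
of elements which are `Admissible` on `T_i`, `N_i = 2 p_i + q_i` the rank of `T_i`.  This is so
for `σ` if

* `σ` is in a subgroup `J` whose image in `GL(T_i)` has a connected Zariski closure (or only: each
  subspace of `T_i ⊗ ℂ` stable under a subgroup of finite index of `J` is stable under `J`), as the
  inertia groups at primes where `T_i` is semistable, also at `ℓ`;
* or `σ^m` is in such a subgroup, and `m` is prime to `N_i !`;
* or `σ` acts on `T_i` by a reflection, as the inertia at a prime `≠ ℓ` where `X` has a reduction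
  with one ordinary double point, and `T_i` is not potentially abelian; more generally it is
  enough that some `σ - z`, `z` a scalar, has a rank `< (L - 1) d` on `T_i`, for all `d ∣ N_i`,
  `d ≥ 2`, and `L ≥ 2`, `L d ≤ N_i` (only for the divisors `L` of `m` if `σ^m` is as above, and
  also for `d = 1` if `T_i` is potentially abelian).

**Theorem.** Then the Mumford-Tate conjecture for `V ⊕ T` (at `ℓ`, over `ℚ` or a finite extension)
holds iff it holds for `V`, the `T_i ⊗ ℂ` are irreducible representations of `Γ`, and no two of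
them are isomorphic up to a twist by a quadratic character.  In this case the `T_i ⊗ ℂ` are
irreducible for all subgroups of finite index of `Γ`.

So for these motives over `ℚ` the semisimplicity and the Tate conjecture over `ℚ` for the
endomorphisms of `T` and its quadratic twists (not over all finite extensions of `ℚ`) imply the
Mumford-Tate conjecture.  The proof uses that `Γ` is generated by the inertia groups, Minkowski's theorem, and that these do not
permute the isotypic components of `T_i ⊗ ℂ` for a normal subgroup of finite index; that there is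
no multiplicity is a consequence of the Hodge numbers.

The field `C_ℓ` is identified with the complex numbers by an embedding `j` of `ℚ_ℓ`; the other
input is the Hodge-Tate decomposition, which always exists (`HodgeTate`).
-/

set_option autoImplicit false

namespace Pool.Agent.Results.MP_d61fbb_ag.OverTheRationals

open MvPolynomial Matrix NumberField
open Pool.Agent.W544.PG (HS BD)

noncomputable section

section groups

variable {ι : Type} [Fintype ι] [DecidableEq ι]

/-- The value of a polynomial in the entries at a matrix. -/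
def value {F : Type} [CommRing F] [Algebra F ℂ] (g : Matrix ι ι ℂ)
    (f : MvPolynomial (ι × ι) F) : ℂ :=
  aeval (fun q : ι × ι => g q.1 q.2) f

/-- `G` is the set of complex points of an algebraic subgroup over `ℚ` of the general linear
group. -/
def IsQGroup (G : Set (Matrix ι ι ℂ)) : Prop :=
  (∃ P : Set (MvPolynomial (ι × ι) ℚ), ∀ g, g ∈ G ↔ g.det ≠ 0 ∧ ∀ f ∈ P, value g f = 0) ∧
  1 ∈ G ∧ (∀ a ∈ G, ∀ b ∈ G, a * b ∈ G) ∧ ∀ a ∈ G, a⁻¹ ∈ G

/-- The complex points of the Mumford-Tate group: the smallest algebraic subgroup over `ℚ` which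
contains `h z` for all `z`. -/
def mumfordTate (h : ℂ → Matrix ι ι ℂ) : Set (Matrix ι ι ℂ) :=
  {g | ∀ G, IsQGroup G → (∀ z, z ≠ 0 → h z ∈ G) → g ∈ G}

/-- The Lie algebra of the Mumford-Tate group (over the complex numbers): the tangent space at
`1`. -/
def lieMumfordTate (h : ℂ → Matrix ι ι ℂ) : Set (Matrix ι ι ℂ) :=
  {y | ∀ f : MvPolynomial (ι × ι) ℚ, (∀ m ∈ mumfordTate h, value m f = 0) →
    ∑ x : ι × ι, y x.1 x.2 * value (1 : Matrix ι ι ℂ) (pderiv x f) = 0}

variable {ℓ : ℕ} [Fact ℓ.Prime] {Γ : Type} [Group Γ]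

/-- The polynomials over the complex numbers which vanish on the image of a subgroup of finite
index (with `ℚ_ℓ` embedded by `j`): the equations of the identity component of the Zariski closure
of `ρ(Γ)`. -/
def Vanishes (j : ℚ_[ℓ] →+* ℂ) (ρ : Γ →* Matrix ι ι ℚ_[ℓ]) (f : MvPolynomial (ι × ι) ℂ) : Prop :=
  ∃ Δ : Subgroup Γ, Δ.FiniteIndex ∧ ∀ s ∈ Δ, value ((ρ s).map j) f = 0

/-- The complex points of the identity component of the Zariski closure of `ρ(Γ)`. -/
def monodromy (j : ℚ_[ℓ] →+* ℂ) (ρ : Γ →* Matrix ι ι ℚ_[ℓ]) : Set (Matrix ι ι ℂ) :=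
  {g | ∀ f, Vanishes j ρ f → value g f = 0}

/-- The complex Lie algebra of the Zariski closure of `ρ(Γ)`: the tangent space at `1`. -/
def lieMonodromy (j : ℚ_[ℓ] →+* ℂ) (ρ : Γ →* Matrix ι ι ℚ_[ℓ]) : Set (Matrix ι ι ℂ) :=
  {y | ∀ f, Vanishes j ρ f →
    ∑ x : ι × ι, y x.1 x.2 * value (1 : Matrix ι ι ℂ) (pderiv x f) = 0}

/-- The Mumford-Tate conjecture: the two groups agree. -/
def MumfordTateConjecture (j : ℚ_[ℓ] →+* ℂ) (h : ℂ → Matrix ι ι ℂ)
    (ρ : Γ →* Matrix ι ι ℚ_[ℓ]) : Prop :=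
  ∀ g : Matrix ι ι ℂ, g.det ≠ 0 → (g ∈ monodromy j ρ ↔ g ∈ mumfordTate h)

end groups

variable {κ : Type} [Fintype κ] [DecidableEq κ] {n r : ℕ}

/-- A rational Hodge structure on `ℚ^κ`: the projections `e (a, b)` to the pieces of type `(a, b)`
of `ℂ^κ`; they are exchanged by complex conjugation, and the pieces of every weight are defined
over `ℚ`. -/
structure RationalHodgeStructure (κ : Type) [Fintype κ] [DecidableEq κ] where
  /-- the types which occur -/
  types : Finset (ℤ × ℤ)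
  /-- the projections -/
  e : ℤ × ℤ → Matrix κ κ ℂ
  mul : ∀ a ∈ types, ∀ b ∈ types, e a * e b = if a = b then e a else 0
  sum : ∑ a ∈ types, e a = 1
  conj : ∀ a ∈ types, a.swap ∈ types ∧ (e a).map (starRingEnd ℂ) = e a.swap
  weight : ∀ w : ℤ, ∃ P : Matrix κ κ ℚ,
    ∑ a ∈ types with a.1 + a.2 = w, e a = P.map (algebraMap ℚ ℂ)

/-- The action of `ℂ^×`: multiplication by `z ^ (-a) * conj z ^ (-b)` on the piece of type
`(a, b)`. -/
def RationalHodgeStructure.h (V : RationalHodgeStructure κ) (z : ℂ) : Matrix κ κ ℂ :=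
  ∑ a ∈ V.types, (z ^ (-a.1) * starRingEnd ℂ z ^ (-a.2)) • V.e a

/-- The operator which is `a - b` on the piece of type `(a, b)`. -/
def RationalHodgeStructure.X (V : RationalHodgeStructure κ) : Matrix κ κ ℂ :=
  ∑ a ∈ V.types, ((a.1 - a.2 : ℤ) : ℂ) • V.e a

/-- The Lie algebra of the Mumford-Tate group of `V` has only the Hodge types `(-1,1)`, `(0,0)`,
`(1,-1)`: the eigenvalues of the commutator with `V.X` on it are `-2`, `0`, `2`. -/
def RationalHodgeStructure.AbelianType (V : RationalHodgeStructure κ) : Prop :=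
  ∀ y ∈ lieMumfordTate V.h, ⁅V.X, ⁅V.X, ⁅V.X, y⁆⁆⁆ = (4 : ℂ) • ⁅V.X, y⁆

/-- The action of `ℂ^×` on `V ⊕ T`: on `T` it is multiplication by `conj z / z`, `1`, `z / conj z`
on the parts where `T.x` is `1`, `0`, `-1`. -/
def hodge (V : RationalHodgeStructure κ) (T : HS n) (z : ℂ) :
    Matrix (κ ⊕ Fin n) (κ ⊕ Fin n) ℂ :=
  fromBlocks (V.h z) 0 0 (1 + ((starRingEnd ℂ z / z - 1) / 2) • (T.x * T.x + T.x) +
    ((z / starRingEnd ℂ z - 1) / 2) • (T.x * T.x - T.x))

variable {ℓ : ℕ} [Fact ℓ.Prime] {Γ : Type} [Group Γ]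

/-- An `ℓ`-adic integral matrix as a matrix over `ℚ_ℓ`. -/
def rat (g : Matrix (Fin n) (Fin n) ℤ_[ℓ]) : Matrix (Fin n) (Fin n) ℚ_[ℓ] :=
  g.map (algebraMap ℤ_[ℓ] ℚ_[ℓ])

/-- The representation `α ⊕ β` of the Galois group on `V ⊕ T`. -/
def galois (α : Γ →* Matrix κ κ ℚ_[ℓ]) (β : Γ →* Matrix (Fin n) (Fin n) ℤ_[ℓ]) :
    Γ →* Matrix (κ ⊕ Fin n) (κ ⊕ Fin n) ℚ_[ℓ] where
  toFun σ := fromBlocks (α σ) 0 0 (rat (β σ))
  map_one' := (Pool.Agent.Y95.MT.tot α β).map_one
  map_mul' := (Pool.Agent.Y95.MT.tot α β).map_mul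

/-- The intersection form over `ℚ_ℓ`. -/
def form (ℓ : ℕ) [Fact ℓ.Prime] (T : HS n) : Matrix (Fin n) (Fin n) ℚ_[ℓ] :=
  T.Q.map (algebraMap ℚ ℚ_[ℓ])

/-- The space `T_i ⊗ ℂ`. -/
def part (c : Fin n → Fin r) (i : Fin r) : Submodule ℂ (Fin n → ℂ) where
  carrier := {w | ∀ a, c a ≠ i → w a = 0}
  zero_mem' := fun _ _ => rfl
  add_mem' := by
    intro x y hx hy a ha
    rw [Pi.add_apply, hx a ha, hy a ha, add_zero]
  smul_mem' := by
    intro z x hx a ha
    rw [Pi.smul_apply, hx a ha, smul_zero]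

/-- A Hodge-Tate operator for the representation on `V ⊕ T`: an element `(X, D)` of the complex Lie
algebra of the Zariski closure of the image of Galois such that `D` has the eigenvalues `1`, `0`,
`-1`, the eigenvalues `1` and `-1` together with multiplicity `2 p_i` on `T_i ⊗ ℂ`, and such that
the commutator with `X` has the eigenvalues `-1`, `0`, `1` on the Lie algebra of the Zariski
closure of the image of Galois in `GL(V)`.  Over `C_ℓ` such an operator exists by theorems of Sen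
and Faltings (and of Faltings and Deligne on abelian varieties for the last property). -/
def HodgeTate (c : Fin n → Fin r) (p : Fin r → ℕ) (j : ℚ_[ℓ] →+* ℂ)
    (α : Γ →* Matrix κ κ ℚ_[ℓ]) (β : Γ →* Matrix (Fin n) (Fin n) ℤ_[ℓ]) : Prop :=
  ∃ (X : Matrix κ κ ℂ) (D : Matrix (Fin n) (Fin n) ℂ),
    fromBlocks X 0 0 D ∈ lieMonodromy j (galois α β) ∧ D * D * D = D ∧
    (∀ i, ∑ a with c a = i, (D * D) a a = 2 * (p i : ℂ)) ∧
    ∀ y ∈ lieMonodromy j α, ⁅X, ⁅X, ⁅X, y⁆⁆⁆ = ⁅X, y⁆

/-- `T_i ⊗ ℂ` is irreducible for every subgroup of finite index of `Γ`. -/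
def AbsolutelyIrreducible (c : Fin n → Fin r) (j : ℚ_[ℓ] →+* ℂ)
    (β : Γ →* Matrix (Fin n) (Fin n) ℤ_[ℓ]) (i : Fin r) : Prop :=
  ∀ Δ : Subgroup Γ, Δ.FiniteIndex → ∀ W : Submodule ℂ (Fin n → ℂ), W ≤ part c i →
    (∀ σ ∈ Δ, ∀ w ∈ W, (rat (β σ)).map j *ᵥ w ∈ W) → W = ⊥ ∨ W = part c i

/-- `T_i ⊗ ℂ` is irreducible for `Γ`. -/
def Irreducible (c : Fin n → Fin r) (j : ℚ_[ℓ] →+* ℂ)
    (β : Γ →* Matrix (Fin n) (Fin n) ℤ_[ℓ]) (i : Fin r) : Prop :=
  ∀ W : Submodule ℂ (Fin n → ℂ), W ≤ part c i →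
    (∀ σ, ∀ w ∈ W, (rat (β σ)).map j *ᵥ w ∈ W) → W = ⊥ ∨ W = part c i

/-- `T_i ⊗ ℂ` and `T_k ⊗ ℂ` are not isomorphic up to a twist by a character with the values `1` and
`-1`: a linear map `A` from `T_i ⊗ ℂ` to `T_k ⊗ ℂ` with `A σ = σ A` or `A σ = -σ A` for each `σ` is
zero. -/
def NotTwistIsomorphic (c : Fin n → Fin r) (j : ℚ_[ℓ] →+* ℂ)
    (β : Γ →* Matrix (Fin n) (Fin n) ℤ_[ℓ]) (i k : Fin r) : Prop :=
  ∀ A : Matrix (Fin n) (Fin n) ℂ, (∀ a b, A a b ≠ 0 → c a = k ∧ c b = i) →
    (∀ σ, A * (rat (β σ)).map j = (rat (β σ)).map j * A ∨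
      A * (rat (β σ)).map j = -((rat (β σ)).map j * A)) → A = 0

/-- The matrix of `σ` on `T_i ⊗ ℂ`. -/
def block (c : Fin n → Fin r) (j : ℚ_[ℓ] →+* ℂ) (β : Γ →* Matrix (Fin n) (Fin n) ℤ_[ℓ])
    (i : Fin r) (σ : Γ) : Matrix {a // c a = i} {a // c a = i} ℂ :=
  ((rat (β σ)).map j).submatrix (fun a => a.1) (fun a => a.1)

/-- Every subspace of `T_i ⊗ ℂ` which is stable under the intersection of `J` with a subgroup of
finite index is stable under `J`.  This is so if the Zariski closure of the image of `J` in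
`GL(T_i)` is connected. -/
def Connected (c : Fin n → Fin r) (j : ℚ_[ℓ] →+* ℂ) (β : Γ →* Matrix (Fin n) (Fin n) ℤ_[ℓ])
    (i : Fin r) (J : Subgroup Γ) : Prop :=
  ∀ Δ : Subgroup Γ, Δ.FiniteIndex → ∀ W : Submodule ℂ (Fin n → ℂ), W ≤ part c i →
    (∀ σ ∈ J, σ ∈ Δ → ∀ w ∈ W, (rat (β σ)).map j *ᵥ w ∈ W) →
      ∀ σ ∈ J, ∀ w ∈ W, (rat (β σ)).map j *ᵥ w ∈ W

/-- A subgroup of finite index acts on `T_i` through a commutative group. -/
def PotentiallyAbelian (c : Fin n → Fin r) (j : ℚ_[ℓ] →+* ℂ)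
    (β : Γ →* Matrix (Fin n) (Fin n) ℤ_[ℓ]) (i : Fin r) : Prop :=
  ∃ Δ : Subgroup Γ, Δ.FiniteIndex ∧ ∀ σ ∈ Δ, ∀ τ ∈ Δ,
    block c j β i σ * block c j β i τ = block c j β i τ * block c j β i σ

/-- The condition on the elements `σ` of the inertia groups; `N` is the rank of `T_i`: some `σ^m`
is in a subgroup which is `Connected`, and for all `d ∣ N`, `L ∣ m` with `L ≥ 2`, `L d ≤ N`
the rank of some `σ - z` on `T_i` is `< (L - 1) d` (for `d = 1` only if `T_i` is potentially
abelian). -/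
def Admissible (c : Fin n → Fin r) (j : ℚ_[ℓ] →+* ℂ) (β : Γ →* Matrix (Fin n) (Fin n) ℤ_[ℓ])
    (i : Fin r) (N : ℕ) (σ : Γ) : Prop :=
  ∃ m : ℕ, (∃ J : Subgroup Γ, Connected c j β i J ∧ σ ^ m ∈ J) ∧
    ∀ L d : ℕ, 2 ≤ L → L ∣ m → d ∣ N → L * d ≤ N → (d = 1 → PotentiallyAbelian c j β i) →
      ∃ z : ℂ, (block c j β i σ - z • 1).rank < (L - 1) * d

/-- The absolute Galois group of `ℚ` (with the Krull topology). -/
abbrev Galois : Type := Gal(AlgebraicClosure ℚ/ℚ)

/-- `σ` is in the inertia group of the ideal `P` of the ring of all algebraic integers. -/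
def Inertia (P : Ideal (𝓞 (AlgebraicClosure ℚ))) (σ : Galois) : Prop :=
  ∀ x : 𝓞 (AlgebraicClosure ℚ), σ • x - x ∈ P

/-- **The Mumford-Tate conjecture for motives of level two over `ℚ`**: if all elements of the
inertia groups are admissible on the `T_i` then the irreducible `T_i ⊗ ℂ` are irreducible for all
subgroups of finite index, and the Mumford-Tate conjecture for `V ⊕ T` is equivalent to: the
conjecture for `V`, and the `T_i ⊗ ℂ` are irreducible and not isomorphic up to quadratic twists;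
the first condition holds if `V` consists of classes of type `(0, 0)` on which Galois acts through
a finite group. -/
theorem result (T : HS n) (c : Fin n → Fin r) (p q : Fin r → ℕ) (hT : T.Big c p q)
    (hp : ∀ i, 2 ≤ p i) (hpq : ∀ i, Nat.Coprime (p i) (q i))
    (V : RationalHodgeStructure κ) (hV : V.AbelianType)
    (α : Galois →* Matrix κ κ ℚ_[ℓ]) (β : Galois →* Matrix (Fin n) (Fin n) ℤ_[ℓ])
    (hβc : Continuous β)
    (hβ : ∀ σ, (rat (β σ))ᵀ * form ℓ T * rat (β σ) = form ℓ T) (hc : ∀ σ, BD c (β σ))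
    (j : ℚ_[ℓ] →+* ℂ) (hHT : HodgeTate c p j α β)
    (hI : ∀ P : Ideal (𝓞 (AlgebraicClosure ℚ)), P.IsMaximal → ∀ σ, Inertia P σ →
      ∀ i, Admissible c j β i (2 * p i + q i) σ) :
    (∀ i, Irreducible c j β i → AbsolutelyIrreducible c j β i) ∧
    (MumfordTateConjecture j (hodge V T) (galois α β) ↔ MumfordTateConjecture j V.h α ∧
      (∀ i, Irreducible c j β i) ∧ ∀ i k, i ≠ k → NotTwistIsomorphic c j β i k) ∧
    (V.types = {(0, 0)} → (Set.range α).Finite → MumfordTateConjecture j V.h α) := by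
  obtain ⟨X, D, hXD, hD3, htr, hX⟩ := hHT
  have hg : Pool.Agent.Y95.MT.GalT c T.Q β := ⟨hβ, hc⟩
  have hcard : ∀ i, Fintype.card {a // c a = i} = 2 * p i + q i := by
    intro i
    rw [Fintype.card_subtype, ← hT.rk i]
  have hI' : ∀ i, Irreducible c j β i → Q43.HTM.Irr c (Q43.HTM.Rj β j) i := fun i hi =>
    Q43.TB.irr_of_gen hβc hg hT.bQ (Q43.TB.gen_rat fun P hP σ hσ => hI P hP σ hσ i) (hcard i)
      (by have := hp i; omega) (hpq i) (Q43.HTM.mem_LieM.1 hXD) hD3 (htr i) hi
  refine ⟨hI', ?_, fun h1 h2 => Q43.HTM.MTCj_types (v := α) (j := j)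
    ⟨V.types, V.e, V.mul, V.sum, V.conj, V.weight⟩ h1 h2⟩
  have h := Q43.HTM.main_HT (T := T) (c := c) (p := p) (q := q) (v := α) (β := β) (j := j) hT hp
    hpq ⟨V.types, V.e, V.mul, V.sum, V.conj, V.weight⟩ hV hg hXD hD3 htr hX
  constructor
  · intro h1
    obtain ⟨h2, h3, h4⟩ := h.1 h1
    exact ⟨h2, fun i W hW hWs => h3 i ⊤ inferInstance W hW fun σ _ => hWs σ,
      fun i k hik => Q43.TB.twist_of_noniso (h4 i k hik)⟩
  · rintro ⟨h2, h3, h4⟩
    exact h.2 ⟨h2, fun i => hI' i (h3 i), fun i k hik =>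
      Q43.TB.noniso_of_twist hg hT.bQ (hI' i (h3 i)) (hI' k (h3 k)) (h4 i k hik)⟩

end

end Pool.Agent.Results.MP_d61fbb_ag.OverTheRationals
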