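import Pool.Agent.Q60.GU.Final

/-!
# The motivic Sato-Tate conjecture for a motive, over all large extensions of the base field, is
# decided by the square and by the Hodge classes in tensors of bounded degree

Let `M` be a motive over the finitely generated field `k`, pure of weight `w` and polarised, `V` its
Hodge realisation, `b = dim V`, `d` the maximum of `|p - q|` for the Hodge types `(p, q)` of `V`, `V_ℓ`
its `ℓ`-adic realisation with the action of `Γ = Gal(k' / k)`, and `G` the motivic Galois group of `M`
over the algebraic closure `k'` of `k`, which is the motivic Galois group of `M` over all large finite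
extensions of `k`. Let `N ≥ exp (64 b ^ (2/3) log (2 (b + d)))`, or `N ≥ b ^ 3` if the centre of the
algebra of the endomorphisms of `V` is totally real. The following are equivalent:

1. `G` is the Mumford-Tate group of `V`, and for all large finite extensions `k₁` of `k`,
   `G_{1, ℓ, k₁}(M) = G_1` over `ℚ_ℓ`, where `G_{1, ℓ, k₁}(M)` and `G_1` are the kernels of the
   multiplier on the Zariski closure of the image of `Gal(k' / k₁)` and on `G`;
2. `G` is the Mumford-Tate group of `V`, and `G_ℓ^0(M) = G` over `ℚ_ℓ`;
3. `V_ℓ` is semisimple; the Tate endomorphisms of `V_ℓ ⊗ V_ℓ` are linear combinations of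
   endomorphisms of the Hodge structure `V ⊗ V`; for all `B` in the Lie algebra of `MT(V)` over `ℚ_ℓ`
   there is `B'` in the Lie algebra of `G_ℓ^0(M)` with `tr (B c) = tr (B' c)` for all `c` in the centre
   of the algebra of the endomorphisms of `V` (this is not needed if the centre is totally real); and
   the homomorphisms of Hodge structures between the tensor powers of `V` with at most `N` factors
   commute with `G`, that is, they are motivated.
-/

set_option autoImplicit false

namespace Pool.Agent.Results.MP_d61fbb_ag.SquareAndBoundedTensors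

open Matrix Pool.Agent.Q60.GL
open Pool.Agent.Q60.GT (TracesAbove)
open Pool.Agent.Q60.GU (IsLarge SatoTateGroupsAgree)

variable {κ : Type} [Fintype κ] [DecidableEq κ] {w : ℤ} {ℓ : ℕ} [Fact ℓ.Prime] {Γ : Type}
  [Group Γ]

/-- **The motivic Sato-Tate conjecture for `M` over all large extensions of the base field.** -/
theorem result (V : HodgeStructure κ w) (Q : Matrix κ κ ℚ) (hQ : IsPolarisation V Q)
    (ρ : Γ →* Matrix κ κ ℚ_[ℓ]) (hρ : Similitudes w Q ρ) (hpure : w ≠ 0 → HasPureElement ρ)
    (G : Set (Matrix κ κ ℂ)) (hG : IsMotivicGroup V Q ρ G) (N : ℕ)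
    (hN : IsLarge V Q (Fintype.card κ ^ 3) N) :
    List.TFAE [
      mumfordTate V.h = G ∧ SatoTateGroupsAgree Q ρ G,
      mumfordTate V.h = G ∧ MonodromyIs ρ G,
      Semisimple ρ ∧ TateIsHodge V ρ ∧ (TracesAbove V ρ ∨ TotallyRealCentre V Q) ∧
        HodgeMotivated V G N] :=
  Pool.Agent.Q60.GU.sato_tfae hQ hρ hpure hG hN

end Pool.Agent.Results.MP_d61fbb_ag.SquareAndBoundedTensors
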