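import Mathlib
import Pool.Agent.Q29.TE.Law3
import Pool.Agent.Q29.BX.Rows
import Pool.Agent.Y1.TS.Main
import Pool.Agent.Q29.GS.SatoTate

/-!
# The motivic Sato-Tate conjecture for abelian varieties with one Frobenius element of almost all slope
types of typical CM fields

Let `K i` (`i` in a finite set) be CM fields of degree `2 g i` which are pairwise independent: for
`i ≠ k` and all complex embeddings `φ` of `K i` and `ψ` of `K k` some automorphism of `ℂ` is the
identity on `φ (K i)` and the complex conjugation on `ψ (K k)` (this is no condition if there is
only one field).

We fix an isomorphism `ν` of the algebraic closure of `ℚ_p` with `ℂ`; it defines a `p`-adic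
valuation of `ℂ`, with the value one at `p`. Let `M i` be a function with integral values on the
complex embeddings of `K i`, invariant under complex conjugation (the weights). A CM type `Φ i` of
`K i` (a choice of one element out of each complex conjugate pair of embeddings), `M i` and a real
number `κ ≠ 0` prescribe the slopes `(a + κ M) / 2` (at the embeddings in `Φ i`) and `(a - κ M) / 2`
(outside of `Φ i`) of a Weil number for `p ^ a` in `K i`. If `p` splits completely in `K i` then, by
Honda and Tate, all rational slopes between `0` and `a` that are symmetric in this way occur for
abelian varieties over finite fields. The case `M = 1`, `κ = a` is the ordinary case.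

**The question.** Let `A` be an abelian variety over a finitely generated subfield `k` of the
complex numbers, of any dimension and with arbitrary endomorphisms, which has good reduction at some
place with `p ^ a` elements in the residue field. Suppose that the characteristic polynomial of the
Frobenius element `γ` at this **one** place is the product of the minimal polynomials of Weil
numbers `π i` for `p ^ a` which generate the fields `K i` and have the slope types `Φ i`, `M i`
(`HasType`); so `dim A = ∑ i, g i`. The property `Q` of the slope types is (`SatoTate`): for all
these `A`, all prime numbers `ℓ` and all finite extensions `k'` of `k` (the fixed fields of the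
subgroups `Δ` of finite index of the Galois group) and `M = h^1(A)`

* the motivic Tate conjecture holds for `M`: the `ℓ`-adic monodromy group `G_{ℓ,k'}(M)` is the
  motivic Galois group `𝒢_{k'}(M)` (over `ℚ_ℓ`);
* **the motivic Sato-Tate conjecture (Q1) holds for `M`:** `G_{1,ℓ,k'}(M) = 𝒢_{1,k'}(M)`, all
  components included.

The formal statement is the one of `MP_d61fbb_ag.LargeFrobeniusTorus` (helper43). The equality is an
equality of group schemes: for the groups of the points with values in any commutative `ℚ_ℓ`-algebra
`R`. Both groups are defined by tensors. `G_{ℓ,k'}(M)` is the group of the automorphisms `u` of `R ⊗
V`, with a factor `c` for the Tate motive, which fix all Galois invariant elements of the spaces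
`(V*)^{⊗ 2 m}(m)` (`monodromy`; this is the tannakian definition in the problem, since the
representation is semisimple by the theorem of Faltings and the tensors without weight are of this
form by the Weil pairing). `𝒢_{k'}(M)` is the group of the automorphisms which fix the motivic
classes (absolute Hodge classes) over `k'`, which by Deligne's theorem are the Hodge classes whose
`ℓ`-adic realization is Galois invariant (`motivic`). The kernel of the multiplier is the group of
the `u` with `c = 1`. `H` is `H_1(A, ℚ)`, `T` the tangent space at the origin, `per : H → T` the
inclusion; `ρ`, `χ`, `ω` are the Galois representation on the Tate module `ℚ_ℓ ⊗ H`, the cyclotomic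
character and the Weil pairing (`IsAbelianVariety`; this contains the theorems of Faltings, the
theorem of Deligne and the theorem on centres of Vasiu, Ullmo and Yafaev); `GaloisActsOnHodge` is
the full theorem of Deligne: the Galois group transforms Hodge classes into Hodge classes.

Since the tannakian groups of all motives in the category generated by `h^1(A)` are quotients of the
two groups, Q1 follows for all these motives (this is not formalized).

**The theorem.** Let `E` be a CM field of degree `2 g`, and let all values of the weights `M` divide
the number `n`.

* (`MostTypes`) For all `n` and `ε > 0` there is a number `u` such that the property `Q` is false
  for at most **a proportion of `max (ε, 0.68 q / g)` of the `2 ^ g` types** of `E`, if `g ≥ u`, the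
  normal subfields of `E` are small (`SmallNormal`: `g` is odd, or all smooth parts of `g` are
  small, that is, a divisor of `g` with all prime factors at most `y` is at most `√(g y ^ 3) / (1 +
  log g) ^ 3`, for all `y ≥ 2`, for instance if `g` is large and has a prime factor larger than `√g
  (1 + log g) ^ 3`, but also if `g = 4 p ^ 2` with a large prime number `p`; or the subfields of `E`
  that are normal over `ℚ` are contained in a subfield of degree at most `√g / (1 + log g) ^ 2`),
  and `q ≤ g` is at least the part of `g` composed of the primes 2 and 3 (or at least twice the
  number of the CM subfields of `E` of degree 4 or 6; `SmallPart`). In particular the property is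
  true for almost all types of **all CM fields of degree `2 g` with `g` odd and prime to `3`**,
  without any condition on the Galois group or on the subfields; for at least 86 percent of all
  types if `g` is odd and not a power of 3; and for at least 32 percent of all types of all fields
  with small normal subfields (take `q = g`).
* (`OddDegrees`) For **all CM fields of degree `2 g` with `g` odd**, `g ≥ u (n)`, without any
  condition on the Galois group or the subfields, it is true for **at least one half of all types**,
  and if all weights are one then for **at least two thirds of all types**.
* (`AllFields`) For **every CM field** `E`, of any degree `2 g`, without any condition on the Galois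
  group or the subfields, and every `m`, the property is true for **all but a proportion of `g / (m
  + 1)` of all slope functions with denominator `m`**: they are `a (1 + D / m) / 2` with one of the
  `(m + 1) ^ g` functions `D` with `D φ̄ = - D φ`, `|D φ| ≤ m` and `D φ` congruent to `m` modulo 2
  (`Box`); the weights are `M = |D|`, and `D ≥ 0` on the type.
* (`AlmostAllTypes`, `AlmostAllDegrees`) Let `q ^ k ≤ g` for all `q` with `q ^ 2 ∣ g`. Then for all
  CM fields of degree `2 g` it is false for at most `2 ^ g * C * n ^ 2 * g ^ (6 / k - 1/4 + ε)`
  types, `C = C (k, ε)`. At most `4 x ^ (1 - 1/k)` of the numbers `g ≤ x` do not have this property
  (`k ≥ 2`).

All this is proved more generally for finitely many pairwise independent fields `K i`; the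
proportions of the types with the property are then multiplied (in the third
and the fourth part the bounds for the exceptions are added).

**What was known.** The starting files prove that almost all types of a CM field have no relations
if it has few CM subfields, and this for all CM fields of degree `2 g` if `g` has a prime factor
larger than `g ^ (1 / 2 + δ)`. For the fields with many CM subfields of the other degrees (examples
are `g = p q` with two nearly equal prime numbers, and `g = p ^ k`) this was open; for the degrees
`2 r ^ k`, `r` prime, a theorem of this team gives the property for at least one half of all types,
by congruences (it is used here for `r = 3`). Some condition is necessary: if `E` is multiquadratic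
and `M = 1` then nearly one half of all types is degenerate (`Pool.Agent.Q29.DP.multiquadratic`).

**The proof.** A multiplicative relation between the conjugates of the `π i` gives, by the `p`-adic
valuations, a linear relation between the signed weights. If there are no homogeneous relations then
the Frobenius torus has the maximal rank `dim A + 1`, and all Tate classes on the powers of `A` are
combinations of Hodge classes (`mt_free`, used in `MP_d61fbb_ag.LargeFrobeniusTorus` for Frobenius
tori of rank greater than `3 dim A / 4 + 1`). Then the two groups are equal by Galois descent
(helper43).

**The proof** that there are no homogeneous relations between the signed weights `e = ± M` of the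
types, `∑ n φ * e (σ φ) = 0` for all automorphisms `σ` of `ℂ`, with `n φ̄ = - n φ`, `n ≠ 0`: it
remains to estimate the number of the degenerate types: those for which `e` is orthogonal to a
minimal Galois-stable space `S` of antisymmetric functions on the set of the complex embeddings of
`E`. Let `G` be the Galois group of the normal closure and `H` the stabilizer of an embedding, `K`
the kernel of the action of `G` on `S` and `F` the field of `H K`; so `S` comes from `F` and is a
faithful representation of the Galois group `G / K` of the normal closure of `F`. Let `c = e + d -
h` where `d` and `h` are the dimensions of `S` and of the part of `S` fixed by `H`, and `e` is the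
dimension of the algebra of the endomorphisms of `S`. The spaces isomorphic to `S` form a component.

(A) The sum of `h d / e` over all components is at most `g`. A component with `c ≥ 3` contributes at
most `2 ^ g C n ^ 4 (h d / (e g)) (log g) ^ 21 / √g`; so these components together contribute
little. For this the size of `F` must be eliminated from the estimate of the starting files; this is
done with their inequality for small denominators and for groups of order `g ^ (log g)`.

(B) The components with `c = 2` and dimension `d ≥ 3`: those with `d ≥ D` contribute at most `2 ^ g
64 log (4 D) / D` together. If `3 ≤ d < D` then by Minkowski `F` has bounded degree, and each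
contributes `2 ^ g o (1 / g)`; this is the new analytic step. Let `p` be a prime number of the size
of a large multiple of `√g`. The spaces isomorphic to `S` have at most `2 ^ e p ^ (h - e)`
reductions `R` modulo `p`, and by Fourier analysis modulo `p` the number of the types orthogonal to
`R` is at most `2 ^ g p ^ (-d)` times the sum over the functions `u` in `R` of a product of cosines,
which is at most a Gaussian function of `u`. A short `u ≠ 0` generates `R` (short integral functions
which are independent over `ℚ` are independent modulo `p`, by Gram determinants); so the sum over
all `R` of the sums over the `u ≠ 0` is at most one Gaussian sum, hence bounded, and altogether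
there are at most `2 ^ g (2 ^ e p ^ (-2) + O (p ^ (-d)))` types.

(C) `c = d = 2`: then `F` has degree 4 or 6, there are at most as many of these components as CM
subfields of degree 4 or 6, and at most half of the part of `g` composed of 2 and 3; each
contributes at most `2 ^ g 1.351 / g`, by the theorem of Erdos on sums of weights with signs,
applied twice. If `g` is a power of 3, and for `OddDegrees`, these components are excluded by a
congruence modulo 3: the lattice of the relations contains a function that is invariant modulo 3
under a Sylow 3-subgroup, which has two orbits on the embeddings.

(D) `c = 1`: then `F` is normal over `ℚ`, `d ^ 2 ≤ [F : ℚ] / 2`, and the component contributes at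
most `2 ^ g C n (log g) ^ (3/2) √(d / g)`. If `g` is odd then `d = 1` (Frobenius and Schur) and
there is at most one. In general the sum of `d ^ 2` over those with `d < y` is at most the largest
divisor of `g` composed of primes `≤ y`; and over all of them at most the degree of a field which
contains all subfields normal over `ℚ`.

(E) For the bounds with a power saving the number of the components with `c ≤ 2` is estimated by the
number of the classes of cyclic subgroups of `G / L`, `L` the intersection of their kernels, using
the theorem of Sylow; here the order of `G / L` is at most `2 g 2 ^ Ω(2 g)` because `H K / K` has
order at most two and is not central. Lemmas of this part were proved by helper24, helper38,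
helper178, helper204, helper227, helper261 and helper275 of this team.

(G) For (`AllFields`) let `φ i` be the embeddings of a type. The functions `D` with relations are
zeros of the polynomial `det (D (σ j φ i))` of degree `g` in the `g` variables `D (φ i)`, for all
automorphisms `σ j` of `ℂ`; if `σ j` maps `φ j` to `φ 1` then it is not zero, since its value for
the function with the values `1` at `φ 1`, `-1` at its conjugate and `0` elsewhere is the
determinant of the unit matrix. Then the lemma of Schwartz and Zippel gives the bound.
-/

set_option autoImplicit false

namespace Pool.Agent.Results.MP_d61fbb_ag.TypicalFields

open NumberField Module IntermediateField Pool.Agent.H204R3.CM Pool.Agent.H977R3.CM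
  Pool.Agent.TH170 Pool.Agent.TH170.FW Pool.Agent.Y1.KN Pool.Agent.Y1.CT Pool.Agent.Y1.TS
  Pool.Agent.Y137.MV Pool.Agent.Q29.TE Pool.Agent.Q29.GS

open Pool.Agent.Q29.DP (notMem_degTypes_of_noRelations)

open Pool.Agent.Q29.BX (AllFields allFields)

/-- The property of the slope types `Φ i` with the weights `M i`. -/
def Q : TypeProperty := fun p _ ν _ _ K _ _ _ M Φ =>
  ForAllWeil ν K M (fun a π => SatoTate (p ^ a) K π) Φ

/-- **The motivic Tate conjecture and the motivic Sato-Tate conjecture for `h^1` of the abelian
varieties with a Frobenius element of almost all slope types of typical CM fields.** -/
theorem result : MostTypes Q ∧ OddDegrees Q ∧ AllFields Q ∧ AlmostAllTypes Q ∧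
    AlmostAllDegrees := by
  have h : WithoutRelations Q := by
    intro p _ ν I _ K _ _ _ M Φ hind hMc hΦ hno
    have hnd : ∀ i, Φ i ∉ degTypes (M i) := fun i => notMem_degTypes_of_noRelations (hno i)
    intro a π ha hπ
    exact satoTate (pow_pos (Fact.out : p.Prime).pos a)
      (fun i => by have := (hπ i).weil; push_cast; exact this) (angle_types hind hMc hΦ hnd hπ)
  exact ⟨mostTypes h, oddDegrees h, allFields h, almostAllTypes h, almostAllDegrees⟩

end Pool.Agent.Results.MP_d61fbb_ag.TypicalFields
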